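import Pool.Agent.H64.LUY.SCH

/-!
Project LU, part Y, module BND: bounds for the norms.
-/

set_option autoImplicit false
set_option maxRecDepth 100000

open scoped BigOperators

noncomputable section

namespace Pool.LU.FK

theorem bnd_b0 : Fintype.card SV = 26 := by decide +kernel
theorem bnd_b1 : ∀ u : SV, (Finset.univ.filter fun a : SV => nz a = 0 ∧ sadj a u).card ≤ 4 := by
  decide +kernel
theorem bnd_b2 : ∀ u : SV, (Finset.univ.filter fun a : SV => nz u = 0 ∧ sadj u a).card ≤ 6 := by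
  decide +kernel
theorem bnd_b3 : ∀ b c : SV, (Finset.univ.filter fun a : SV =>
    nz a = 0 ∧ nz b = 1 ∧ nz c = 2 ∧ sadj a b ∧ sadj b c ∧ sadj a c).card ≤ 2 := by
  decide +kernel
theorem bnd_b4 : ∀ a c : SV, (Finset.univ.filter fun b : SV =>
    nz a = 0 ∧ nz b = 1 ∧ nz c = 2 ∧ sadj a b ∧ sadj b c ∧ sadj a c).card ≤ 2 := by
  decide +kernel
theorem bnd_b5 : ∀ a b : SV, (Finset.univ.filter fun c : SV =>
    nz a = 0 ∧ nz b = 1 ∧ nz c = 2 ∧ sadj a b ∧ sadj b c ∧ sadj a c).card ≤ 2 := by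
  decide +kernel

/-- a sum over a subtype -/
theorem bnd_sub {T : Type} [Fintype T] (P : T → Prop) [DecidablePred P] [Fintype {x // P x}]
    (f : T → ℝ) : ∑ x : {x // P x}, f x.1 = ∑ x : T, if P x then f x else 0 := by
  rw [← Finset.sum_filter]
  exact (Finset.sum_subtype (Finset.univ.filter P) (by simp) f).symm

variable (Y : YSet)

theorem bnd_df_row (v : SV) (y : Y.X) : ∑ y', |df Y v y y'| ≤ 2 := by
  calc ∑ y', |df Y v y y'| ≤ ∑ y', ((if y' = y then (1 : ℝ) else 0) +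
        (if y' = Y.ρ v y then 1 else 0)) := by
        refine Finset.sum_le_sum fun y' _ => ?_
        unfold df
        refine (abs_sub _ _).trans (le_of_eq ?_)
        split_ifs <;> simp
    _ = 2 := by
        rw [Finset.sum_add_distrib, Finset.sum_ite_eq', Finset.sum_ite_eq']
        simp; norm_num

theorem bnd_df_abs (v : SV) (y y' : Y.X) : |df Y v y y'| ≤ (if y' = y then (1 : ℝ) else 0) +
    (if y' = Y.ρ v y then 1 else 0) := by
  unfold df
  refine (abs_sub _ _).trans (le_of_eq ?_)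
  split_ifs <;> simp

theorem bnd_df_col (v : SV) (y' : Y.X) : ∑ y, |df Y v y y'| ≤ 2 := by
  calc ∑ y, |df Y v y y'| ≤ ∑ y, ((if y' = y then (1 : ℝ) else 0) +
        (if y = Y.ρ v y' then 1 else 0)) := by
        refine Finset.sum_le_sum fun y _ => (bnd_df_abs Y v y y').trans (le_of_eq ?_)
        congr 1
        have h : (y' = Y.ρ v y) ↔ (y = Y.ρ v y') := by
          constructor
          · intro h; rw [h, Y.ρρ]
          · intro h; rw [h, Y.ρρ]
        simp only [h]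
    _ = 2 := by
        rw [Finset.sum_add_distrib, Finset.sum_ite_eq, Finset.sum_ite_eq']
        simp; norm_num

theorem bnd_df_col1 (v : SV) (y' : Y.X) :
    ∑ y, (if Y.χ v y = 1 then |df Y v y y'| else 0) ≤ 1 := by
  calc ∑ y, (if Y.χ v y = 1 then |df Y v y y'| else 0)
      ≤ ∑ y, ((if y' = y then (if Y.χ v y = 1 then (1 : ℝ) else 0) else 0) +
        (if y = Y.ρ v y' then (if Y.χ v y = 1 then (1 : ℝ) else 0) else 0)) := by
        refine Finset.sum_le_sum fun y _ => ?_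
        have h : (y' = Y.ρ v y) ↔ (y = Y.ρ v y') := by
          constructor
          · intro h; rw [h, Y.ρρ]
          · intro h; rw [h, Y.ρρ]
        have h2 := bnd_df_abs Y v y y'
        simp only [h] at h2
        by_cases hc : Y.χ v y = 1
        · simpa only [hc, if_true] using h2
        · simp [hc]
    _ = (if Y.χ v y' = 1 then (1 : ℝ) else 0) +
        (if Y.χ v (Y.ρ v y') = 1 then (1 : ℝ) else 0) := by
        rw [Finset.sum_add_distrib, Finset.sum_ite_eq, Finset.sum_ite_eq']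
        simp
    _ ≤ 1 := by
        rw [Y.χ_self]
        rcases Int.units_eq_one_or (Y.χ v y') with h | h
        · rw [h, if_pos rfl, if_neg (by decide)]; norm_num
        · rw [h, if_neg (by decide), if_pos (by decide)]; norm_num

/-- two disjoint subtypes -/
theorem bnd_two {T : Type} [Fintype T] (P1 P2 : T → Prop) [DecidablePred P1] [DecidablePred P2]
    [Fintype {x // P1 x}] [Fintype {x // P2 x}] (f g : T → ℝ) (h12 : ∀ x, P1 x → ¬ P2 x)
    (hg : ∀ x, 0 ≤ g x) (h1 : ∀ x, P1 x → f x ≤ g x) (h2 : ∀ x, P2 x → f x ≤ g x) :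
    ∑ x : {x // P1 x}, f x.1 + ∑ x : {x // P2 x}, f x.1 ≤ ∑ x, g x := by
  rw [bnd_sub, bnd_sub, ← Finset.sum_add_distrib]
  refine Finset.sum_le_sum fun x _ => ?_
  by_cases a1 : P1 x
  · have a2 := h12 x a1
    simp only [a1, a2, if_true, if_false, add_zero]
    exact h1 x a1
  · by_cases a2 : P2 x
    · simp only [a1, a2, if_true, if_false, zero_add]
      exact h2 x a2
    · simp only [a1, a2, if_false, add_zero]
      exact hg x

theorem bnd_D1 : ((100 : ℝ) • (1 : Matrix Y.X Y.X ℝ) - (D1 Y).transpose * D1 Y).PosSemidef := by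
  have h := schur_test Y.X (C1a Y ⊕ C1b Y) (D1 Y).transpose 50 2 (by norm_num) ?_ ?_
  · norm_num at h
    simpa using h
  · intro y'
    simp only [Matrix.transpose_apply]
    rw [Fintype.sum_sum_type]
    have h1 := bnd_two (T := SV × Y.X)
      (fun p => (p.1 ≠ v1 ∧ p.1 ≠ v2) ∧ Y.χ p.1 p.2 = 1)
      (fun p => (p.1 = v1 ∨ p.1 = v2) ∧ Y.χ p.1 p.2 = 1)
      (fun p => |df Y p.1 p.2 y'|) (fun p => if Y.χ p.1 p.2 = 1 then |df Y p.1 p.2 y'| else 0)
      (fun p h1 h2 => by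
        rcases h2.1 with h | h
        · exact h1.1.1 h
        · exact h1.1.2 h)
      (fun p => by split_ifs <;> positivity)
      (fun p h => by simp [h.2]) (fun p h => by simp [h.2])
    have h2 : ∑ p : SV × Y.X, (if Y.χ p.1 p.2 = 1 then |df Y p.1 p.2 y'| else 0) ≤ 26 := by
      rw [Fintype.sum_prod_type]
      refine (Finset.sum_le_sum fun v _ => bnd_df_col1 Y v y').trans ?_
      rw [Finset.sum_const, Finset.card_univ, bnd_b0]
      norm_num
    have h3 : ∑ p : C1a Y, |D1 Y (Sum.inl p) y'| + ∑ p : C1b Y, |D1 Y (Sum.inr p) y'| ≤ 26 :=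
      h1.trans h2
    linarith
  · intro p
    exact bnd_df_row Y (e1 Y p).1 (e1 Y p).2

theorem bnd_d3 (a b c : SV) (y : Y.X) (s t : SV) (y' : Y.X) : |d3 Y a b c y s t y'| ≤
    (if s = b ∧ t = c then |df Y a y y'| else 0) + (if s = a ∧ t = c then |df Y b y y'| else 0) +
    (if s = a ∧ t = b then |df Y c y y'| else 0) := by
  unfold d3
  refine (abs_add_le _ _).trans (add_le_add ((abs_sub _ _).trans (add_le_add ?_ ?_)) ?_) <;>
  · split_ifs <;> simp

theorem bnd_pt (s0 t0 : SV) (f : Y.X → ℝ) :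
    ∑ q : (SV × SV) × Y.X, (if q.1.1 = s0 ∧ q.1.2 = t0 then f q.2 else 0) = ∑ y, f y := by
  rw [Fintype.sum_prod_type, Finset.sum_comm]
  refine Finset.sum_congr rfl fun y _ => ?_
  rw [Fintype.sum_eq_single (s0, t0)]
  · simp
  · rintro ⟨s, t⟩ h
    rw [if_neg]
    rintro ⟨h1, h2⟩
    exact h (Prod.ext h1 h2)

theorem bnd_D3r (p : C3 Y) : ∑ q, |D3 Y p q| ≤ 8 := by
  obtain ⟨⟨⟨a, b, c⟩, y⟩, hp⟩ := p
  rw [Fintype.sum_sum_type]
  have h1 := bnd_two (T := (SV × SV) × Y.X)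
    (fun p => (nz p.1.1 = 0 ∧ sadj p.1.1 p.1.2) ∧ Y.χ p.1.1 p.2 = 1 ∧ Y.χ p.1.2 p.2 = 1)
    (fun p => (nz p.1.1 = 1 ∧ nz p.1.2 = 2 ∧ sadj p.1.1 p.1.2) ∧
      Y.χ p.1.1 p.2 = 1 ∧ Y.χ p.1.2 p.2 = 1)
    (fun q => |d3 Y a b c y q.1.1 q.1.2 q.2|)
    (fun q => (if q.1.1 = b ∧ q.1.2 = c then |df Y a y q.2| else 0) +
      (if q.1.1 = a ∧ q.1.2 = c then |df Y b y q.2| else 0) +
      (if q.1.1 = a ∧ q.1.2 = b then |df Y c y q.2| else 0))
    (fun p h1 h2 => by have := h1.1.1; have := h2.1.1; omega)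
    (fun p => by
      refine add_nonneg (add_nonneg ?_ ?_) ?_ <;>
      · split_ifs <;> positivity)
    (fun p _ => bnd_d3 Y a b c y _ _ _) (fun p _ => bnd_d3 Y a b c y _ _ _)
  have h2 : ∑ q : (SV × SV) × Y.X, ((if q.1.1 = b ∧ q.1.2 = c then |df Y a y q.2| else 0) +
      (if q.1.1 = a ∧ q.1.2 = c then |df Y b y q.2| else 0) +
      (if q.1.1 = a ∧ q.1.2 = b then |df Y c y q.2| else 0)) ≤ 6 := by
    rw [Finset.sum_add_distrib, Finset.sum_add_distrib, bnd_pt Y b c fun y' => |df Y a y y'|,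
      bnd_pt Y a c fun y' => |df Y b y y'|, bnd_pt Y a b fun y' => |df Y c y y'|]
    have e1 := bnd_df_row Y a y
    have e2 := bnd_df_row Y b y
    have e3 := bnd_df_row Y c y
    linarith
  have h3 := h1.trans h2
  refine le_trans ?_ (h3.trans (by norm_num))
  exact le_refl _

/-- cliques of type 0, 1, 2 -/
def bQ (a b c : SV) : Prop :=
  nz a = 0 ∧ nz b = 1 ∧ nz c = 2 ∧ sadj a b ∧ sadj b c ∧ sadj a c

instance (a b c : SV) : Decidable (bQ a b c) := by unfold bQ; infer_instance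

theorem bnd_D3c (q : C2a Y ⊕ C2b Y) : ∑ p, |D3 Y p q| ≤ 25 / 2 := by
  rcases hq : e2 Y q with ⟨⟨s, t⟩, y'⟩
  have h0 : ∑ p, |D3 Y p q| = ∑ p : C3 Y, |d3 Y p.1.1.1 p.1.1.2.1 p.1.1.2.2 p.1.2 s t y'| := by
    refine Finset.sum_congr rfl fun p _ => ?_
    simp only [D3, Matrix.of_apply, hq]
  rw [h0]
  have h1 := bnd_sub (T := (SV × SV × SV) × Y.X)
    (fun p => (nz p.1.1 = 0 ∧ nz p.1.2.1 = 1 ∧ nz p.1.2.2 = 2 ∧
      sadj p.1.1 p.1.2.1 ∧ sadj p.1.2.1 p.1.2.2 ∧ sadj p.1.1 p.1.2.2) ∧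
      Y.χ p.1.1 p.2 = 1 ∧ Y.χ p.1.2.1 p.2 = 1 ∧ Y.χ p.1.2.2 p.2 = 1)
    (fun p => |d3 Y p.1.1 p.1.2.1 p.1.2.2 p.2 s t y'|)
  have h2 : ∑ p : C3 Y, |d3 Y p.1.1.1 p.1.1.2.1 p.1.1.2.2 p.1.2 s t y'| = _ := h1
  rw [h2]
  have h3 : ∑ x : (SV × SV × SV) × Y.X, (if (nz x.1.1 = 0 ∧ nz x.1.2.1 = 1 ∧ nz x.1.2.2 = 2 ∧
      sadj x.1.1 x.1.2.1 ∧ sadj x.1.2.1 x.1.2.2 ∧ sadj x.1.1 x.1.2.2) ∧
      Y.χ x.1.1 x.2 = 1 ∧ Y.χ x.1.2.1 x.2 = 1 ∧ Y.χ x.1.2.2 x.2 = 1 then
      |d3 Y x.1.1 x.1.2.1 x.1.2.2 x.2 s t y'| else 0) ≤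
      ∑ x : (SV × SV × SV) × Y.X, ((if s = x.1.2.1 ∧ t = x.1.2.2 then
        (if bQ x.1.1 x.1.2.1 x.1.2.2 then |df Y x.1.1 x.2 y'| else 0) else 0) +
      (if s = x.1.1 ∧ t = x.1.2.2 then
        (if bQ x.1.1 x.1.2.1 x.1.2.2 then |df Y x.1.2.1 x.2 y'| else 0) else 0) +
      (if s = x.1.1 ∧ t = x.1.2.1 then
        (if bQ x.1.1 x.1.2.1 x.1.2.2 then |df Y x.1.2.2 x.2 y'| else 0) else 0)) := by
    refine Finset.sum_le_sum fun x _ => ?_
    by_cases hx : (nz x.1.1 = 0 ∧ nz x.1.2.1 = 1 ∧ nz x.1.2.2 = 2 ∧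
      sadj x.1.1 x.1.2.1 ∧ sadj x.1.2.1 x.1.2.2 ∧ sadj x.1.1 x.1.2.2) ∧
      Y.χ x.1.1 x.2 = 1 ∧ Y.χ x.1.2.1 x.2 = 1 ∧ Y.χ x.1.2.2 x.2 = 1
    · rw [if_pos hx]
      have hb : bQ x.1.1 x.1.2.1 x.1.2.2 := hx.1
      simp only [hb, if_true]
      exact bnd_d3 Y _ _ _ _ _ _ _
    · rw [if_neg hx]
      refine add_nonneg (add_nonneg ?_ ?_) ?_ <;>
      · split_ifs <;> positivity
  refine h3.trans ?_
  rw [Finset.sum_add_distrib, Finset.sum_add_distrib]
  have key : ∀ (P : SV → Prop) [DecidablePred P], (Finset.univ.filter P).card ≤ 2 →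
      ∑ a : SV, (if P a then ∑ y, |df Y a y y'| else 0) ≤ 4 := by
    intro P _ hP
    calc ∑ a : SV, (if P a then ∑ y, |df Y a y y'| else 0) ≤ ∑ a : SV, (if P a then 2 else 0) := by
          refine Finset.sum_le_sum fun a _ => ?_
          split_ifs
          · exact bnd_df_col Y a y'
          · exact le_refl _
      _ = (Finset.univ.filter P).card * 2 := by
          rw [← Finset.sum_filter, Finset.sum_const, nsmul_eq_mul]
      _ ≤ 4 := by
          have : ((Finset.univ.filter P).card : ℝ) ≤ 2 := by exact_mod_cast hP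
          linarith
  have k1 : ∑ x : (SV × SV × SV) × Y.X, (if s = x.1.2.1 ∧ t = x.1.2.2 then
        (if bQ x.1.1 x.1.2.1 x.1.2.2 then |df Y x.1.1 x.2 y'| else 0) else 0) ≤ 4 := by
    refine le_trans (le_of_eq ?_) (key (fun a => bQ a s t) (bnd_b3 s t))
    rw [Fintype.sum_prod_type, Fintype.sum_prod_type]
    refine Finset.sum_congr rfl fun a _ => ?_
    rw [Fintype.sum_eq_single (s, t)]
    · simp only [and_self, if_true]
      split_ifs <;> simp
    · rintro ⟨s', t'⟩ h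
      refine Finset.sum_eq_zero fun y _ => ?_
      rw [if_neg]
      rintro ⟨h1, h2⟩
      exact h (Prod.ext h1.symm h2.symm)
  have k2 : ∑ x : (SV × SV × SV) × Y.X, (if s = x.1.1 ∧ t = x.1.2.2 then
        (if bQ x.1.1 x.1.2.1 x.1.2.2 then |df Y x.1.2.1 x.2 y'| else 0) else 0) ≤ 4 := by
    refine le_trans (le_of_eq ?_) (key (fun b => bQ s b t) (bnd_b4 s t))
    rw [Fintype.sum_prod_type, Fintype.sum_prod_type, Fintype.sum_eq_single s]
    · rw [Fintype.sum_prod_type]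
      refine Finset.sum_congr rfl fun b _ => ?_
      rw [Fintype.sum_eq_single t]
      · simp only [and_self, if_true]
        split_ifs <;> simp
      · intro t' h
        refine Finset.sum_eq_zero fun y _ => ?_
        rw [if_neg]
        rintro ⟨h1, h2⟩
        exact h h2.symm
    · intro s' h
      refine Finset.sum_eq_zero fun x _ => Finset.sum_eq_zero fun y _ => ?_
      rw [if_neg]
      rintro ⟨h1, h2⟩
      exact h h1.symm
  have k3 : ∑ x : (SV × SV × SV) × Y.X, (if s = x.1.1 ∧ t = x.1.2.1 then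
        (if bQ x.1.1 x.1.2.1 x.1.2.2 then |df Y x.1.2.2 x.2 y'| else 0) else 0) ≤ 4 := by
    refine le_trans (le_of_eq ?_) (key (fun c => bQ s t c) (bnd_b5 s t))
    rw [Fintype.sum_prod_type, Fintype.sum_prod_type, Fintype.sum_eq_single s]
    · rw [Fintype.sum_prod_type, Fintype.sum_eq_single t]
      · refine Finset.sum_congr rfl fun c _ => ?_
        simp only [and_self, if_true]
        split_ifs <;> simp
      · intro t' h
        refine Finset.sum_eq_zero fun x _ => Finset.sum_eq_zero fun y _ => ?_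
        rw [if_neg]
        rintro ⟨h1, h2⟩
        exact h h2.symm
    · intro s' h
      refine Finset.sum_eq_zero fun x _ => Finset.sum_eq_zero fun y _ => ?_
      rw [if_neg]
      rintro ⟨h1, h2⟩
      exact h h1.symm
  linarith

theorem bnd_d2 (a b : SV) (y : Y.X) (u : SV) (y' : Y.X) : |d2 Y a b y u y'| ≤
    (if u = b then |df Y a y y'| else 0) + (if u = a then |df Y b y y'| else 0) := by
  unfold d2
  refine (abs_sub _ _).trans (add_le_add ?_ ?_) <;>
  · split_ifs <;> simp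

theorem bnd_ATr (i : C1a Y) : ∑ j, |AT Y i j| ≤ 25 := by
  obtain ⟨⟨u, y'⟩, hi⟩ := i
  have h1 := bnd_sub (T := (SV × SV) × Y.X)
    (fun p => (nz p.1.1 = 0 ∧ sadj p.1.1 p.1.2) ∧ Y.χ p.1.1 p.2 = 1 ∧ Y.χ p.1.2 p.2 = 1)
    (fun p => |d2 Y p.1.1 p.1.2 p.2 u y'|)
  have h2 : ∑ j : C2a Y, |AT Y ⟨(u, y'), hi⟩ j| = _ := h1
  rw [h2]
  have h3 : ∑ x : (SV × SV) × Y.X, (if (nz x.1.1 = 0 ∧ sadj x.1.1 x.1.2) ∧
      Y.χ x.1.1 x.2 = 1 ∧ Y.χ x.1.2 x.2 = 1 then |d2 Y x.1.1 x.1.2 x.2 u y'| else 0) ≤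
      ∑ x : (SV × SV) × Y.X, ((if u = x.1.2 then
        (if nz x.1.1 = 0 ∧ sadj x.1.1 x.1.2 then |df Y x.1.1 x.2 y'| else 0) else 0) +
      (if u = x.1.1 then
        (if nz x.1.1 = 0 ∧ sadj x.1.1 x.1.2 then |df Y x.1.2 x.2 y'| else 0) else 0)) := by
    refine Finset.sum_le_sum fun x _ => ?_
    by_cases hx : (nz x.1.1 = 0 ∧ sadj x.1.1 x.1.2) ∧ Y.χ x.1.1 x.2 = 1 ∧ Y.χ x.1.2 x.2 = 1
    · rw [if_pos hx]
      simp only [hx.1.1, hx.1.2, and_self, if_true]
      exact bnd_d2 Y _ _ _ _ _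
    · rw [if_neg hx]
      refine add_nonneg ?_ ?_ <;>
      · split_ifs <;> positivity
  refine h3.trans ?_
  rw [Finset.sum_add_distrib]
  have key : ∀ (P : SV → Prop) [DecidablePred P] (m : ℕ), (Finset.univ.filter P).card ≤ m →
      ∑ a : SV, (if P a then ∑ y, |df Y a y y'| else 0) ≤ m * 2 := by
    intro P _ m hP
    calc ∑ a : SV, (if P a then ∑ y, |df Y a y y'| else 0) ≤ ∑ a : SV, (if P a then 2 else 0) := by
          refine Finset.sum_le_sum fun a _ => ?_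
          split_ifs
          · exact bnd_df_col Y a y'
          · exact le_refl _
      _ = (Finset.univ.filter P).card * 2 := by
          rw [← Finset.sum_filter, Finset.sum_const, nsmul_eq_mul]
      _ ≤ m * 2 := by
          have : ((Finset.univ.filter P).card : ℝ) ≤ m := by exact_mod_cast hP
          linarith
  have k1 : ∑ x : (SV × SV) × Y.X, (if u = x.1.2 then
        (if nz x.1.1 = 0 ∧ sadj x.1.1 x.1.2 then |df Y x.1.1 x.2 y'| else 0) else 0) ≤
        (4 : ℕ) * 2 := by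
    refine le_trans (le_of_eq ?_) (key (fun a => nz a = 0 ∧ sadj a u) 4 (bnd_b1 u))
    rw [Fintype.sum_prod_type, Fintype.sum_prod_type]
    refine Finset.sum_congr rfl fun a _ => ?_
    rw [Fintype.sum_eq_single u]
    · simp only [if_true]
      split_ifs <;> simp
    · intro t' h
      refine Finset.sum_eq_zero fun y _ => ?_
      rw [if_neg]
      intro h1
      exact h h1.symm
  have k2 : ∑ x : (SV × SV) × Y.X, (if u = x.1.1 then
        (if nz x.1.1 = 0 ∧ sadj x.1.1 x.1.2 then |df Y x.1.2 x.2 y'| else 0) else 0) ≤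
        (6 : ℕ) * 2 := by
    refine le_trans (le_of_eq ?_) (key (fun b => nz u = 0 ∧ sadj u b) 6 (bnd_b2 u))
    rw [Fintype.sum_prod_type, Fintype.sum_prod_type, Fintype.sum_eq_single u]
    · refine Finset.sum_congr rfl fun b _ => ?_
      simp only [if_true]
      split_ifs <;> simp
    · intro s' h
      refine Finset.sum_eq_zero fun x _ => Finset.sum_eq_zero fun y _ => ?_
      rw [if_neg]
      intro h1
      exact h h1.symm
  push_cast at k1 k2
  linarith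

theorem bnd_ATc (j : C2a Y) : ∑ i, |AT Y i j| ≤ 4 := by
  obtain ⟨⟨⟨a, b⟩, y⟩, hj⟩ := j
  have h1 := bnd_sub (T := SV × Y.X)
    (fun p => (p.1 ≠ v1 ∧ p.1 ≠ v2) ∧ Y.χ p.1 p.2 = 1) (fun p => |d2 Y a b y p.1 p.2|)
  have h2 : ∑ i : C1a Y, |AT Y i ⟨((a, b), y), hj⟩| = _ := h1
  rw [h2]
  have h3 : ∑ x : SV × Y.X, (if (x.1 ≠ v1 ∧ x.1 ≠ v2) ∧ Y.χ x.1 x.2 = 1 then
      |d2 Y a b y x.1 x.2| else 0) ≤
      ∑ x : SV × Y.X, ((if x.1 = b then |df Y a y x.2| else 0) +
      (if x.1 = a then |df Y b y x.2| else 0)) := by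
    refine Finset.sum_le_sum fun x _ => ?_
    have h4 := bnd_d2 Y a b y x.1 x.2
    split_ifs at h4 ⊢ <;> first | exact h4 | positivity
  refine h3.trans ?_
  rw [Fintype.sum_prod_type]
  have e : ∀ (c d : SV), ∑ x : SV, ∑ z : Y.X, (if x = c then |df Y d y z| else 0) ≤ 2 := by
    intro c d
    rw [Fintype.sum_eq_single c]
    · simp only [if_true]
      exact bnd_df_row Y d y
    · intro x h
      simp [h]
  simp only [Finset.sum_add_distrib]
  have e1 := e b a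
  have e2 := e a b
  linarith

/-- BND -/
theorem bnd : BNDStmt := by
  intro Y
  refine ⟨bnd_D1 Y, ?_, ?_⟩
  · have h := schur_test (C3 Y) (C2a Y ⊕ C2b Y) (D3 Y) 8 (25 / 2) (by norm_num) (bnd_D3r Y)
      (bnd_D3c Y)
    norm_num at h
    simpa using h
  · intro Z hZ
    have hle : ∀ i j, |Z i j| ≤ |AT Y i j| := by
      intro i j
      rcases hZ i j with h | h
      · rw [h]
      · rw [h, abs_zero]; exact abs_nonneg _
    have h := schur_test (C1a Y) (C2a Y) Z 25 4 (by norm_num)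
      (fun i => (Finset.sum_le_sum fun j _ => hle i j).trans (bnd_ATr Y i))
      (fun j => (Finset.sum_le_sum fun i _ => hle i j).trans (bnd_ATc Y j))
    norm_num at h
    simpa using h

end Pool.LU.FK
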