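import Pool.Agent.H87.LUY.Stmts

/-!
Project LU, part Y, module CNT: the numbers of cells.
-/

set_option autoImplicit false
set_option maxRecDepth 100000

open scoped BigOperators

noncomputable section

namespace Pool.LU.FK

theorem cnt_a1 : (Finset.univ.filter fun v : SV => v ≠ v1 ∧ v ≠ v2).card = 24 := by
  decide +kernel
theorem cnt_a2 : (Finset.univ.filter fun v : SV => v = v1 ∨ v = v2).card = 2 := by
  decide +kernel
theorem cnt_a3 : (Finset.univ.filter fun p : SV × SV => nz p.1 = 0 ∧ sadj p.1 p.2).card = 48 := by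
  decide +kernel
theorem cnt_a4 : (Finset.univ.filter fun p : SV × SV =>
    nz p.1 = 1 ∧ nz p.2 = 2 ∧ sadj p.1 p.2).card = 24 := by decide +kernel
theorem cnt_a5 : (Finset.univ.filter fun p : SV × SV × SV =>
    nz p.1 = 0 ∧ nz p.2.1 = 1 ∧ nz p.2.2 = 2 ∧
    sadj p.1 p.2.1 ∧ sadj p.2.1 p.2.2 ∧ sadj p.1 p.2.2).card = 48 := by decide +kernel
theorem cnt_a6 : (Finset.univ.filter fun v : SV => nz v = 0 ∧ v ≠ v1 ∧ v ≠ v2).card = 6 := by
  decide +kernel

/-- an involution which changes the sign `χ` -/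
theorem cnt_half {X : Type} [Fintype X] (ρ : X → X) (χ : X → ℤˣ) (P : X → Prop)
    [DecidablePred P] (hρ : ∀ x, ρ (ρ x) = x) (hχ : ∀ x, χ (ρ x) = - χ x)
    (hP : ∀ x, P (ρ x) ↔ P x) :
    2 * (Finset.univ.filter fun x => P x ∧ χ x = 1).card = (Finset.univ.filter P).card := by
  classical
  have h1 : (Finset.univ.filter fun x => P x ∧ χ x = 1).card =
      (Finset.univ.filter fun x => P x ∧ ¬ χ x = 1).card := by
    refine Finset.card_nbij' ρ ρ ?_ ?_ (fun x _ => hρ x) (fun x _ => hρ x)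
    · intro x hx
      simp only [Finset.coe_filter, Finset.mem_univ, true_and, Set.mem_ofPred_eq] at hx ⊢
      refine ⟨(hP x).2 hx.1, ?_⟩
      rw [hχ, hx.2]; decide
    · intro x hx
      simp only [Finset.coe_filter, Finset.mem_univ, true_and, Set.mem_ofPred_eq] at hx ⊢
      refine ⟨(hP x).2 hx.1, ?_⟩
      rcases Int.units_eq_one_or (χ x) with h | h
      · exact absurd h hx.2
      · rw [hχ, h]; decide
  have h2 := Finset.card_filter_add_card_filter_not (s := Finset.univ.filter P)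
    (fun x => χ x = 1)
  rw [Finset.filter_filter, Finset.filter_filter] at h2
  omega

theorem cnt_sig {A X : Type} [Fintype A] [Fintype X] (Q : A → Prop) [DecidablePred Q]
    (P : A → X → Prop) [∀ a, DecidablePred (P a)] (k m : ℕ)
    (h : ∀ a, Q a → k * (Finset.univ.filter (P a)).card = m)
    [Fintype {p : A × X // Q p.1 ∧ P p.1 p.2}] :
    k * Fintype.card {p : A × X // Q p.1 ∧ P p.1 p.2} = (Finset.univ.filter Q).card * m := by
  classical
  rw [Fintype.card_subtype, Finset.card_filter, Fintype.sum_prod_type, Finset.mul_sum,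
    Finset.card_filter, Finset.sum_mul]
  refine Finset.sum_congr rfl fun a _ => ?_
  by_cases hq : Q a
  · simp only [hq, true_and, if_true, one_mul]
    rw [← h a hq, Finset.card_filter]
  · simp [hq]

variable (Y : YSet)

theorem cnt_one (v : SV) : 2 * (Finset.univ.filter fun y : Y.X => Y.χ v y = 1).card =
    Fintype.card Y.X := by
  have h := cnt_half (Y.ρ v) (Y.χ v) (fun _ => True) (Y.ρρ v) (Y.χ_self v) (fun _ => Iff.rfl)
  simpa using h

theorem cnt_two (a b : SV) (hab : sadj a b) :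
    4 * (Finset.univ.filter fun y : Y.X => Y.χ a y = 1 ∧ Y.χ b y = 1).card =
    Fintype.card Y.X := by
  have h := cnt_half (Y.ρ b) (Y.χ b) (fun y => Y.χ a y = 1) (Y.ρρ b) (Y.χ_self b)
    (fun y => by rw [Y.χ_adj a b hab])
  have h1 := cnt_one Y a
  omega

theorem cnt_three (a b c : SV) (hab : sadj a b) (hbc : sadj b c) (hac : sadj a c) :
    8 * (Finset.univ.filter fun y : Y.X => Y.χ a y = 1 ∧ Y.χ b y = 1 ∧ Y.χ c y = 1).card =
    Fintype.card Y.X := by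
  have h := cnt_half (Y.ρ c) (Y.χ c) (fun y => Y.χ a y = 1 ∧ Y.χ b y = 1) (Y.ρρ c) (Y.χ_self c)
    (fun y => by rw [Y.χ_adj a c hac, Y.χ_adj b c hbc])
  have h1 := cnt_two Y a b hab
  simp only [and_assoc] at h
  omega

/-- CNT -/
theorem cnt : CNTStmt := by
  intro Y
  refine ⟨?_, ?_, ?_, ?_, ?_, ?_⟩
  · have h := cnt_sig (A := SV) (X := Y.X) (fun v => v ≠ v1 ∧ v ≠ v2) (fun v y => Y.χ v y = 1)
      2 (Fintype.card Y.X) (fun v _ => cnt_one Y v)
    rw [cnt_a1] at h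
    have e : Fintype.card (C1a Y) = Fintype.card {p : SV × Y.X // (p.1 ≠ v1 ∧ p.1 ≠ v2) ∧
      Y.χ p.1 p.2 = 1} := Fintype.card_congr (Equiv.refl _)
    omega
  · have h := cnt_sig (A := SV) (X := Y.X) (fun v => v = v1 ∨ v = v2) (fun v y => Y.χ v y = 1)
      2 (Fintype.card Y.X) (fun v _ => cnt_one Y v)
    rw [cnt_a2] at h
    have e : Fintype.card (C1b Y) = Fintype.card {p : SV × Y.X // (p.1 = v1 ∨ p.1 = v2) ∧
      Y.χ p.1 p.2 = 1} := Fintype.card_congr (Equiv.refl _)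
    omega
  · have h := cnt_sig (A := SV × SV) (X := Y.X) (fun p => nz p.1 = 0 ∧ sadj p.1 p.2)
      (fun p y => Y.χ p.1 y = 1 ∧ Y.χ p.2 y = 1)
      4 (Fintype.card Y.X) (fun p hp => cnt_two Y p.1 p.2 hp.2)
    rw [cnt_a3] at h
    have e : Fintype.card (C2a Y) = Fintype.card {p : (SV × SV) × Y.X //
      (nz p.1.1 = 0 ∧ sadj p.1.1 p.1.2) ∧ Y.χ p.1.1 p.2 = 1 ∧ Y.χ p.1.2 p.2 = 1} :=
      Fintype.card_congr (Equiv.refl _)
    omega
  · have h := cnt_sig (A := SV × SV) (X := Y.X)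
      (fun p => nz p.1 = 1 ∧ nz p.2 = 2 ∧ sadj p.1 p.2)
      (fun p y => Y.χ p.1 y = 1 ∧ Y.χ p.2 y = 1)
      4 (Fintype.card Y.X) (fun p hp => cnt_two Y p.1 p.2 hp.2.2)
    rw [cnt_a4] at h
    have e : Fintype.card (C2b Y) = Fintype.card {p : (SV × SV) × Y.X //
      (nz p.1.1 = 1 ∧ nz p.1.2 = 2 ∧ sadj p.1.1 p.1.2) ∧
      Y.χ p.1.1 p.2 = 1 ∧ Y.χ p.1.2 p.2 = 1} := Fintype.card_congr (Equiv.refl _)
    omega
  · have h := cnt_sig (A := SV × SV × SV) (X := Y.X)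
      (fun p => nz p.1 = 0 ∧ nz p.2.1 = 1 ∧ nz p.2.2 = 2 ∧
        sadj p.1 p.2.1 ∧ sadj p.2.1 p.2.2 ∧ sadj p.1 p.2.2)
      (fun p y => Y.χ p.1 y = 1 ∧ Y.χ p.2.1 y = 1 ∧ Y.χ p.2.2 y = 1)
      8 (Fintype.card Y.X) (fun p hp => cnt_three Y p.1 p.2.1 p.2.2 hp.2.2.2.1 hp.2.2.2.2.1
        hp.2.2.2.2.2)
    rw [cnt_a5] at h
    have e : Fintype.card (C3 Y) = Fintype.card {p : (SV × SV × SV) × Y.X //
      (nz p.1.1 = 0 ∧ nz p.1.2.1 = 1 ∧ nz p.1.2.2 = 2 ∧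
      sadj p.1.1 p.1.2.1 ∧ sadj p.1.2.1 p.1.2.2 ∧ sadj p.1.1 p.1.2.2) ∧
      Y.χ p.1.1 p.2 = 1 ∧ Y.χ p.1.2.1 p.2 = 1 ∧ Y.χ p.1.2.2 p.2 = 1} :=
      Fintype.card_congr (Equiv.refl _)
    omega
  · have h := cnt_sig (A := SV) (X := Y.X) (fun v => nz v = 0 ∧ v ≠ v1 ∧ v ≠ v2)
      (fun v y => Y.χ v y = 1) 2 (Fintype.card Y.X) (fun v _ => cnt_one Y v)
    rw [cnt_a6] at h
    have e : Fintype.card (CC Y) = Fintype.card {p : SV × Y.X //
      (nz p.1 = 0 ∧ p.1 ≠ v1 ∧ p.1 ≠ v2) ∧ Y.χ p.1 p.2 = 1} :=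
      Fintype.card_congr (Equiv.refl _)
    omega

end Pool.LU.FK
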