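import Pool.Agent.H87.LUY.Stmts

/-!
Project LU, part Y, module SCH: the Schur test (with the hypothesis `0 ≤ C`, which is needed when
there are no columns).
-/

set_option autoImplicit false

open scoped BigOperators

noncomputable section

namespace Pool.LU.FK

/-- the Schur test -/
theorem schur_test (I J : Type) [Fintype I] [DecidableEq I] [Fintype J]
    (Z : Matrix I J ℝ) (R C : ℝ) (hC0 : 0 ≤ C) (hR : ∀ i, ∑ j, |Z i j| ≤ R)
    (hC : ∀ j, ∑ i, |Z i j| ≤ C) :
    ((R * C) • (1 : Matrix I I ℝ) - Z * Z.transpose).PosSemidef := by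
  refine Matrix.PosSemidef.of_dotProduct_mulVec_nonneg ?_ ?_
  · refine Matrix.IsHermitian.sub ?_ ?_
    · refine Matrix.IsHermitian.ext fun i j => ?_
      simp only [Matrix.smul_apply, Matrix.one_apply, smul_eq_mul, star_trivial]
      by_cases h : i = j
      · subst h; simp
      · simp [h, Ne.symm h]
    · refine Matrix.IsHermitian.ext fun i j => ?_
      simp only [Matrix.mul_apply, Matrix.transpose_apply, star_trivial]
      exact Finset.sum_congr rfl fun k _ => mul_comm _ _
  · intro x
    have h1 : Star.star x ⬝ᵥ (((R * C) • (1 : Matrix I I ℝ) - Z * Z.transpose).mulVec x) =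
        R * C * ∑ i, x i ^ 2 - ∑ j, (∑ i, Z i j * x i) ^ 2 := by
      have e0 : Star.star x = x := by ext i; simp
      rw [e0, Matrix.sub_mulVec, dotProduct_sub, Matrix.smul_mulVec, Matrix.one_mulVec,
        dotProduct_smul, smul_eq_mul]
      congr 1
      · congr 1
        simp only [dotProduct]
        exact Finset.sum_congr rfl fun i _ => by ring
      · rw [← Matrix.mulVec_mulVec, Matrix.dotProduct_mulVec]
        simp only [dotProduct]
        refine Finset.sum_congr rfl fun j _ => ?_
        have a1 : Matrix.vecMul x Z j = ∑ i, Z i j * x i := by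
          simp only [Matrix.vecMul, dotProduct]
          exact Finset.sum_congr rfl fun i _ => by ring
        have a2 : Matrix.mulVec Z.transpose x j = ∑ i, Z i j * x i := by
          simp only [Matrix.mulVec, dotProduct, Matrix.transpose_apply]
        rw [a1, a2]; ring
    rw [h1, sub_nonneg]
    calc ∑ j, (∑ i, Z i j * x i) ^ 2
        ≤ ∑ j, C * ∑ i, |Z i j| * x i ^ 2 := by
          refine Finset.sum_le_sum fun j _ => ?_
          have h2 : (∑ i, Z i j * x i) ^ 2 ≤ (∑ i, |Z i j|) * ∑ i, |Z i j| * x i ^ 2 := by
            have h3 : |∑ i, Z i j * x i| ≤ ∑ i, |Z i j| * |x i| :=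
              (Finset.abs_sum_le_sum_abs _ _).trans
                (le_of_eq (Finset.sum_congr rfl fun i _ => abs_mul _ _))
            have h4 : (∑ i, Z i j * x i) ^ 2 ≤ (∑ i, |Z i j| * |x i|) ^ 2 := by
              rw [← sq_abs]
              exact pow_le_pow_left₀ (abs_nonneg _) h3 2
            refine h4.trans ?_
            refine Finset.sum_sq_le_sum_mul_sum_of_sq_le_mul Finset.univ
              (fun i _ => abs_nonneg _)
              (fun i _ => mul_nonneg (abs_nonneg _) (sq_nonneg _)) fun i _ => le_of_eq ?_
            rw [mul_pow, sq_abs, sq_abs]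
            nlinarith [sq_abs (Z i j), sq_abs (x i), abs_nonneg (Z i j)]
          refine h2.trans (mul_le_mul_of_nonneg_right (hC j) ?_)
          exact Finset.sum_nonneg fun i _ => mul_nonneg (abs_nonneg _) (sq_nonneg _)
      _ = C * ∑ i, (∑ j, |Z i j|) * x i ^ 2 := by
          rw [← Finset.mul_sum, Finset.sum_comm]
          congr 1
          exact Finset.sum_congr rfl fun i _ => by rw [Finset.sum_mul]
      _ ≤ C * ∑ i, R * x i ^ 2 := by
          refine mul_le_mul_of_nonneg_left (Finset.sum_le_sum fun i _ => ?_) hC0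
          exact mul_le_mul_of_nonneg_right (hR i) (sq_nonneg _)
      _ = R * C * ∑ i, x i ^ 2 := by rw [← Finset.mul_sum]; ring

end Pool.LU.FK
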